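import Pool.Agent.Z702.Defs

/-!
Project Z702: classes of the rational points of the isogenous curve, if there are finitely many
rational points.
-/

set_option autoImplicit false

namespace Pool.Agent.Y545.Z702

open WeierstrassCurve Pool.Agent.Y668

lemma ns_of {A C x y : ℚ} (hC : C ≠ 0) (hD : A ^ 2 - 4 * C ≠ 0)
    (h : y ^ 2 = x ^ 3 + A * x ^ 2 + C * x) : (Wt A C).toAffine.Nonsingular x y := by
  rw [← Affine.equation_iff_nonsingular_of_Δ_ne_zero]
  · exact Wt_eqn.mpr h
  · have h1 : (Wt A C).Δ = 16 * C ^ 2 * (A ^ 2 - 4 * C) := by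
      simp only [Wt, WeierstrassCurve.Δ, WeierstrassCurve.b₂, WeierstrassCurve.b₄,
        WeierstrassCurve.b₆, WeierstrassCurve.b₈]
      ring
    change (Wt A C).Δ ≠ 0
    rw [h1]
    exact mul_ne_zero (mul_ne_zero (by norm_num) (pow_ne_zero 2 hC)) hD

lemma quad_fin (u v : ℚ) : {X : ℚ | X ^ 2 - u * X + v = 0}.Finite := by
  by_cases h : ∃ X0 : ℚ, X0 ^ 2 - u * X0 + v = 0
  · obtain ⟨X0, h0⟩ := h
    apply Set.Finite.subset (Set.toFinite {X0, u - X0})
    intro X hX
    have h1 : (X - X0) * (X - (u - X0)) = 0 := by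
      have : X ^ 2 - u * X + v = 0 := hX
      linear_combination this - h0
    rcases mul_eq_zero.1 h1 with h2 | h2
    · left; linarith
    · right; rw [Set.mem_singleton_iff]; linarith
  · push Not at h
    apply Set.Finite.subset Set.finite_empty
    intro X hX
    exact h X hX

/-- finiteness of the set of rational points of the isogenous curve -/
lemma fin_iso {a b : ℚ} (hb : b ≠ 0) (hc : a ^ 2 - 4 * b ≠ 0)
    (hf : Finite (Wt a b).toAffine.Point) :
    Finite (Wt (-2 * a) (a ^ 2 - 4 * b)).toAffine.Point := by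
  -- the set of the first coordinates
  let xc : (Wt a b).toAffine.Point → ℚ := fun P => match P with
    | .zero => 0
    | .some x _ _ => x
  have hS : (Set.range xc).Finite := Set.finite_range xc
  set U : Set (ℚ × ℚ) := {(0, 0)} ∪ ⋃ x ∈ Set.range xc,
    ⋃ X ∈ {X : ℚ | X ^ 2 - (2 * a + 4 * x) * X + (a ^ 2 - 4 * b) = 0},
      (fun Y : ℚ => (X, Y)) '' {Y : ℚ | Y ^ 2 - 0 * Y + (-(4 * x * X ^ 2)) = 0} with hU
  have hUf : U.Finite := by
    apply Set.Finite.union (Set.finite_singleton _)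
    apply Set.Finite.biUnion hS
    intro x _
    apply Set.Finite.biUnion (quad_fin _ _)
    intro X _
    exact (quad_fin _ _).image _
  have key : ∀ X Y : ℚ, Y ^ 2 = X ^ 3 + (-2 * a) * X ^ 2 + (a ^ 2 - 4 * b) * X → (X, Y) ∈ U := by
    intro X Y h
    by_cases hX : X = 0
    · left
      subst hX
      have : Y = 0 := by
        have : Y ^ 2 = 0 := by rw [h]; ring
        exact pow_eq_zero_iff (two_ne_zero) |>.1 this
      simp [this]
    · right
      have hE : (Y * (a ^ 2 - 4 * b - X ^ 2) / (8 * X ^ 2)) ^ 2 = (Y ^ 2 / (4 * X ^ 2)) ^ 3 +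
          a * (Y ^ 2 / (4 * X ^ 2)) ^ 2 + b * (Y ^ 2 / (4 * X ^ 2)) := by
        rw [div_pow, mul_pow, h]
        field_simp
        ring
      have hn := ns_of hb hc hE
      have hx : Y ^ 2 / (4 * X ^ 2) ∈ Set.range xc :=
        ⟨Affine.Point.some _ _ hn, rfl⟩
      refine Set.mem_iUnion₂.2 ⟨Y ^ 2 / (4 * X ^ 2), hx, ?_⟩
      refine Set.mem_iUnion₂.2 ⟨X, ?_, ?_⟩
      · change X ^ 2 - (2 * a + 4 * (Y ^ 2 / (4 * X ^ 2))) * X + (a ^ 2 - 4 * b) = 0
        rw [h]
        field_simp
        ring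
      · refine ⟨Y, ?_, rfl⟩
        change Y ^ 2 - 0 * Y + (-(4 * (Y ^ 2 / (4 * X ^ 2)) * X ^ 2)) = 0
        field_simp
        ring
  have : Finite U := hUf.to_subtype
  let F : (Wt (-2 * a) (a ^ 2 - 4 * b)).toAffine.Point → Option U := fun P => match P with
    | .zero => none
    | .some x y h => some ⟨(x, y), key x y (Wt_eqn.mp h.1)⟩
  apply Finite.of_injective F
  intro P Q hPQ
  cases P with
  | zero =>
    cases Q with
    | zero => rfl
    | some x y h => simp [F] at hPQ
  | some x y h =>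
    cases Q with
    | zero => simp [F] at hPQ
    | some x' y' h' =>
      simp only [F, Option.some.injEq, Subtype.mk.injEq, Prod.mk.injEq] at hPQ
      obtain ⟨rfl, rfl⟩ := hPQ
      rfl

/-- every point is twice a point, or differs from such a point by `(0, 0)` -/
lemma half {A C : ℚ} (hC : C ≠ 0) (hD : A ^ 2 - 4 * C ≠ 0) (hCs : ¬ IsSquare C)
    (hDs : ¬ IsSquare (A ^ 2 - 4 * C)) (hf : Finite (Wt A C).toAffine.Point)
    (P : (Wt A C).toAffine.Point) :
    ∃ Q, P = Q + Q ∨ P = Affine.Point.some 0 0 (ns_of (x := 0) (y := 0) hC hD (by ring)) + (Q + Q) := by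
  set T : (Wt A C).toAffine.Point :=
    Affine.Point.some 0 0 (ns_of (x := 0) (y := 0) hC hD (by ring)) with hT
  let f : (Wt A C).toAffine.Point →+ (Wt A C).toAffine.Point := AddMonoidHom.id _ + AddMonoidHom.id _
  have hfa : ∀ Q, f Q = Q + Q := fun Q => rfl
  have hker : (f.ker : Set (Wt A C).toAffine.Point) = {0, T} := by
    ext Q
    simp only [SetLike.mem_coe, AddMonoidHom.mem_ker, hfa, Set.mem_insert_iff,
      Set.mem_singleton_iff]
    constructor
    · intro h
      cases Q with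
      | zero => left; rfl
      | some x y hn =>
        right
        have h1 : (Affine.Point.some x y hn : (Wt A C).toAffine.Point) =
            -Affine.Point.some x y hn := eq_neg_of_add_eq_zero_left h
        rw [Affine.Point.neg_some] at h1
        have h2 : y = (Wt A C).toAffine.negY x y := by
          simpa using h1
        have h3 : y = 0 := by
          simp only [Affine.negY, Wt] at h2
          linarith
        subst h3
        have h4 := Wt_eqn.mp hn.1
        have h5 : x * (x ^ 2 + A * x + C) = 0 := by linear_combination -h4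
        rcases mul_eq_zero.1 h5 with h6 | h6
        · subst h6; rfl
        · exfalso
          apply hDs
          refine ⟨2 * x + A, ?_⟩
          linear_combination -4 * h6
    · rintro (rfl | rfl)
      · exact add_zero 0
      · have h1 : T = -T := by
          rw [hT, Affine.Point.neg_some]
          congr 1
          simp [Affine.negY, Wt]
        nth_rewrite 2 [h1]
        exact add_neg_cancel T
  have hT0 : T ≠ 0 := by
    rw [hT]
    exact Affine.Point.some_ne_zero _
  have hcard : Nat.card f.ker = 2 := by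
    have : Nat.card f.ker = Nat.card (f.ker : Set (Wt A C).toAffine.Point) := rfl
    rw [this, hker, Nat.card_coe_set_eq, Set.ncard_pair hT0.symm]
  have hidx : f.range.index = 2 := by
    have h1 := f.ker.card_mul_index
    have h2 := f.range.card_mul_index
    rw [AddSubgroup.index_ker, hcard] at h1
    have h3 : 0 < Nat.card f.range := Nat.card_pos
    have h4 : Nat.card f.range * f.range.index = Nat.card f.range * 2 := by
      rw [h2, ← h1, mul_comm]
    exact Nat.eq_of_mul_eq_mul_left h3 h4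
  have hTn : T ∉ f.range := by
    rintro ⟨Q, hQ⟩
    rw [hfa] at hQ
    have h1 := al_add (two_ne_zero (α := ℚ)) Q Q
    rw [hQ] at h1
    have h2 : al A C T = C := by
      rw [hT, al_some]
      simp
    rw [h2] at h1
    apply hCs
    have h3 : al A C Q ≠ 0 := al_ne hC Q
    obtain ⟨r, hr⟩ := h1
    refine ⟨r / al A C Q, ?_⟩
    field_simp
    linear_combination hr
  by_cases hP : P ∈ f.range
  · obtain ⟨Q, hQ⟩ := hP
    exact ⟨Q, Or.inl (by rw [← hQ, hfa])⟩
  · have h1 : P - T ∈ f.range := by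
      have h2 := AddSubgroup.add_mem_iff_of_index_two hidx (a := P - T) (b := T)
      rw [sub_add_cancel] at h2
      by_contra h3
      exact hP (h2.2 (by tauto))
    obtain ⟨Q, hQ⟩ := h1
    refine ⟨Q, Or.inr ?_⟩
    rw [hfa] at hQ
    rw [hQ]
    abel

theorem t_TOR : Pool.Agent.Z702.S_TOR := by
  intro a b d hb hc hbs hcs hfin hloc
  obtain ⟨X, Y, r, hX, hY, hXd⟩ := hloc
  have hb' : (b : ℚ) ≠ 0 := by exact_mod_cast hb
  have hc' : (a : ℚ) ^ 2 - 4 * b ≠ 0 := by exact_mod_cast hc
  have hD : (-2 * (a : ℚ)) ^ 2 - 4 * ((a : ℚ) ^ 2 - 4 * b) ≠ 0 := by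
    have : (-2 * (a : ℚ)) ^ 2 - 4 * ((a : ℚ) ^ 2 - 4 * b) = 16 * b := by ring
    rw [this]
    exact mul_ne_zero (by norm_num) hb'
  have hDs : ¬ IsSquare ((-2 * (a : ℚ)) ^ 2 - 4 * ((a : ℚ) ^ 2 - 4 * b)) := by
    rintro ⟨s, hs⟩
    apply hbs
    refine ⟨s / 4, ?_⟩
    field_simp
    linear_combination hs
  have hf := fin_iso hb' hc' hfin
  have hY' : Y ^ 2 = X ^ 3 + (-2 * (a : ℚ)) * X ^ 2 + ((a : ℚ) ^ 2 - 4 * b) * X := by
    rw [hY]; ring
  have hn := ns_of hc' hD hY'
  have hr : r ≠ 0 := by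
    rintro rfl
    apply hX
    rw [hXd]; ring
  have hal : al (-2 * (a : ℚ)) ((a : ℚ) ^ 2 - 4 * b) (Affine.Point.some X Y hn) = X := by
    rw [al_some]
    simp [hX]
  have sq_of : ∀ (u v : ℚ), v ≠ 0 → IsSquare (X * (u * v ^ 2)) → IsSquare ((d : ℚ) * u) := by
    rintro u v hv ⟨s, hs⟩
    refine ⟨s / (r * v), ?_⟩
    rw [hXd] at hs
    field_simp
    linear_combination hs
  obtain ⟨Q, hQ | hQ⟩ := half hc' hD hcs hDs hf (Affine.Point.some X Y hn)
  · left
    have h1 := al_add (two_ne_zero (α := ℚ)) Q Q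
    rw [← hQ, hal] at h1
    obtain ⟨s, hs⟩ := h1
    have h2 := sq_of 1 (al _ _ Q) (al_ne hc' Q) ⟨s, by linear_combination hs⟩
    simpa using h2
  · right
    have h1 := al_add (two_ne_zero (α := ℚ)) Q Q
    have h3 := al_add (two_ne_zero (α := ℚ)) (Affine.Point.some 0 0
      (ns_of (x := 0) (y := 0) hc' hD (by ring))) (Q + Q)
    rw [← hQ, hal] at h3
    have h4 : al (-2 * (a : ℚ)) ((a : ℚ) ^ 2 - 4 * b) (Affine.Point.some 0 0
      (ns_of (x := 0) (y := 0) hc' hD (by ring))) = (a : ℚ) ^ 2 - 4 * b := by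
      rw [al_some]
      simp
    rw [h4] at h3
    obtain ⟨s, hs⟩ := h1
    obtain ⟨t, ht⟩ := h3
    set α := al (-2 * (a : ℚ)) ((a : ℚ) ^ 2 - 4 * b) Q
    set β := al (-2 * (a : ℚ)) ((a : ℚ) ^ 2 - 4 * b) (Q + Q)
    have hα : α ≠ 0 := al_ne hc' Q
    have hβ : β ≠ 0 := al_ne hc' (Q + Q)
    refine sq_of _ (α * β) (mul_ne_zero hα hβ) ?_
    refine ⟨s * t, ?_⟩
    linear_combination (X * ((a : ℚ) ^ 2 - 4 * b) * β) * hs + s * s * ht

end Pool.Agent.Y545.Z702
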